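import Pool.Agent.Helper35_WH.Stmt2

/-!
# Module FREEFACE: removing a free face
-/

namespace Pool.Agent.Helper35_WH

open FreeGroup

/-- a path which avoids an edge, in the subgraph -/
theorem isPath_pmap {V E : Type} (s t : E → V) (P : E → Prop) :
    ∀ (L : List (E × Bool)) (h : ∀ x ∈ L, P x.1) (u w : V), IsPath s t u L w →
      IsPath (fun e : {e // P e} => s e.1) (fun e => t e.1) u
        (L.pmap (fun x hx => ((⟨x.1, hx⟩ : {e // P e}), x.2)) h) w := by
  intro L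
  induction L with
  | nil =>
    intro h u w hp
    exact hp
  | cons x L ih =>
    intro h u w hp
    obtain ⟨e, b⟩ := x
    obtain ⟨h1, h2⟩ := hp
    exact ⟨h1, ih (fun x hx => h x (List.mem_cons_of_mem _ hx)) _ _ h2⟩

theorem readW_pmap {E α : Type} (l : E → α) (P : E → Prop) (L : List (E × Bool))
    (h : ∀ x ∈ L, P x.1) : readW (fun e : {e // P e} => l e.1)
      (L.pmap (fun x hx => ((⟨x.1, hx⟩ : {e // P e}), x.2)) h) = readW l L := by
  unfold readW
  rw [List.map_pmap]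
  exact List.pmap_eq_map (p := fun x => P x.1) (f := fun x : E × Bool => (l x.1, x.2)) h

/-- the complex without the free face `e` and without the square `q` -/
def Cx.face {I J : Type} (C : Cx I J) (e : C.A) (q : C.S)
    (hb : ∀ q', q' ≠ q → C.bot q' ≠ e) (ht : ∀ q', q' ≠ q → C.top q' ≠ e) : Cx I J where
  V := C.V
  A := {e' : C.A // e' ≠ e}
  B := C.B
  S := {q' : C.S // q' ≠ q}
  s₁ x := C.s₁ x.1
  t₁ x := C.t₁ x.1
  l₁ x := C.l₁ x.1
  s₂ := C.s₂
  t₂ := C.t₂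
  l₂ := C.l₂
  bot x := ⟨C.bot x.1, hb x.1 x.2⟩
  top x := ⟨C.top x.1, ht x.1 x.2⟩
  lef x := C.lef x.1
  rig x := C.rig x.1
  h1 x := C.h1 x.1
  h2 x := C.h2 x.1
  h3 x := C.h3 x.1
  h4 x := C.h4 x.1
  h5 x := C.h5 x.1
  h6 x := C.h6 x.1

theorem Cx.univ_face {I J : Type} (C : Cx I J) {F : Type} [Group F] (ρ : C.A → F) (o : C.V)
    (hρ : ∀ q, ρ (C.bot q) = ρ (C.top q)) (h : C.Univ ρ (fun _ => 1) o) (e : C.A) (q : C.S)
    (c : Bool) (hqc : C.hside (q, c) = e) (huniq : ∀ x, C.hside x = e → x = (q, c))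
    (hb : ∀ q', q' ≠ q → C.bot q' ≠ e) (ht : ∀ q', q' ≠ q → C.top q' ≠ e) :
    (C.face e q hb ht).Univ (fun x => ρ x.1) (fun _ => 1) o := by
  intro M _ μ₁ μ₂ hμ
  -- the extension
  obtain ⟨x, hx⟩ : ∃ x : M, ∀ ν : C.A → M, (∀ e' : {e' : C.A // e' ≠ e}, ν e'.1 = μ₁ e') →
      (ν (C.bot q) * μ₂ (C.rig q) = μ₂ (C.lef q) * ν (C.top q) ↔ ν e = x) := by
    cases c with
    | false =>
      have h1 : C.bot q = e := hqc
      have h2 : C.top q ≠ e := by
        intro h3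
        have := huniq (q, true) h3
        simp at this
      refine ⟨μ₂ (C.lef q) * μ₁ ⟨C.top q, h2⟩ * (μ₂ (C.rig q))⁻¹, fun ν hν => ?_⟩
      rw [h1, ← hν ⟨C.top q, h2⟩]
      constructor
      · intro h4
        rw [← h4]
        group
      · intro h4
        rw [h4]
        group
    | true =>
      have h1 : C.top q = e := hqc
      have h2 : C.bot q ≠ e := by
        intro h3
        have := huniq (q, false) h3
        simp at this
      refine ⟨(μ₂ (C.lef q))⁻¹ * μ₁ ⟨C.bot q, h2⟩ * μ₂ (C.rig q), fun ν hν => ?_⟩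
      rw [h1, ← hν ⟨C.bot q, h2⟩]
      constructor
      · intro h4
        rw [mul_assoc, h4]
        group
      · intro h4
        rw [h4]
        group
  let ν : C.A → M := fun e' => if he : e' = e then x else μ₁ ⟨e', he⟩
  have hν : ∀ e' : {e' : C.A // e' ≠ e}, ν e'.1 = μ₁ e' := by
    intro e'
    simp only [ν]
    rw [dif_neg e'.2]
  have hνe : ν e = x := by
    simp only [ν]
    rw [dif_pos trivial]
  have hflat : C.Flat ν μ₂ := by
    intro q'
    by_cases hq' : q' = q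
    · subst hq'
      exact (hx ν hν).2 hνe
    · have h1 := hμ ⟨q', hq'⟩
      have e1 := hν ⟨C.bot q', hb q' hq'⟩
      have e2 := hν ⟨C.top q', ht q' hq'⟩
      change ν (C.bot q') = _ at e1
      change ν (C.top q') = _ at e2
      rw [e1, e2]
      exact h1
  obtain ⟨⟨f, p⟩, ⟨hp0, hp1, hp2⟩, hun⟩ := h M ν μ₂ hflat
  refine ⟨⟨f, p⟩, ⟨hp0, ?_, hp2⟩, ?_⟩
  · intro e'
    rw [← hν e']
    exact hp1 e'.1
  · rintro ⟨g, r⟩ ⟨hr0, hr1, hr2⟩
    apply hun
    refine ⟨hr0, ?_, hr2⟩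
    have key : ∀ r' : C.V → M, (∀ e' : C.B, μ₂ e' = (r' (C.s₂ e'))⁻¹ * g 1 * r' (C.t₂ e')) →
        (r' (C.s₁ (C.bot q)))⁻¹ * g (ρ (C.bot q)) * r' (C.t₁ (C.bot q)) * μ₂ (C.rig q) =
        μ₂ (C.lef q) * ((r' (C.s₁ (C.top q)))⁻¹ * g (ρ (C.top q)) * r' (C.t₁ (C.top q))) := by
      intro r' hr'
      rw [hr' (C.rig q), hr' (C.lef q), C.h1, C.h2, C.h3, C.h4, hρ q, MonoidHom.map_one g]
      group
    -- the value at `e`
    let ν' : C.A → M := fun e' => (r (C.s₁ e'))⁻¹ * g (ρ e') * r (C.t₁ e')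
    have hν' : ∀ e' : {e' : C.A // e' ≠ e}, ν' e'.1 = μ₁ e' := fun e' => (hr1 e').symm
    have h3 : ν' e = x := by
      rw [← hx ν' hν']
      exact key r hr2
    intro e'
    by_cases he' : e' = e
    · subst he'
      change ν e' = ν' e'
      rw [hνe, h3]
    · rw [show ν e' = μ₁ ⟨e', he'⟩ from hν ⟨e', he'⟩]
      exact hr1 ⟨e', he'⟩

/-- **Module FREEFACE.** -/
theorem freeFace : FreeFaceStatement := by
  intro n X Y m e he hcard
  obtain ⟨⟨⟨q, c⟩, hqc⟩, huniq⟩ := Fintype.card_eq_one_iff.1 hcard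
  have huniq' : ∀ x, m.C.hside x = e → x = (q, c) := fun x hx =>
    congrArg Subtype.val (huniq ⟨x, hx⟩)
  have hb : ∀ q', q' ≠ q → m.C.bot q' ≠ e := fun q' hq' h =>
    hq' (congrArg Prod.fst (huniq' (q', false) h))
  have ht : ∀ q', q' ≠ q → m.C.top q' ≠ e := fun q' hq' h =>
    hq' (congrArg Prod.fst (huniq' (q', true) h))
  have hhp : ∀ x ∈ m.hp, x.1 ≠ e := by
    rintro ⟨e', b⟩ hx h
    subst h
    exact he b hx
  let hp' : List ({e' : m.C.A // e' ≠ e} × Bool) :=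
    m.hp.pmap (fun x hx => ((⟨x.1, hx⟩ : {e' // e' ≠ e}), x.2)) hhp
  refine ⟨{
    F := m.F
    eX := m.eX
    eY := m.eY
    C := m.C.face e q hb ht
    pos := m.pos
    pos_inj := m.pos_inj
    pos₁ := fun e' => m.pos₁ e'.1
    pos₂ := m.pos₂
    inj₁ := fun a b h1 h2 => Subtype.ext (m.inj₁ _ _ h1 h2)
    inj₂ := m.inj₂
    injS := fun a b h1 h2 => Subtype.ext (m.injS _ _ (congrArg Subtype.val h1) h2)
    w0 := m.w0
    w1 := m.w1
    hp := hp'
    vp := m.vp
    hp_path := isPath_pmap _ _ (fun e' => e' ≠ e) m.hp hhp _ _ m.hp_path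
    vp_path := m.vp_path
    hp_read := (readW_pmap m.C.l₁ (fun e' => e' ≠ e) m.hp hhp).trans m.hp_read
    vp_read := m.vp_read
    univ := m.C.univ_face _ _ (fun q => by rw [m.C.h5]) m.univ e q c hqc huniq' hb ht }, ?_⟩
  unfold Model.size
  have h1 : Fintype.card {e' : m.C.A // e' ≠ e} < Fintype.card m.C.A :=
    Fintype.card_subtype_lt (x := e) (by simp)
  have h2 : Fintype.card {q' : m.C.S // q' ≠ q} < Fintype.card m.C.S :=
    Fintype.card_subtype_lt (x := q) (by simp)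
  have h3 : Fintype.card (m.C.face e q hb ht).A = Fintype.card {e' : m.C.A // e' ≠ e} :=
    Fintype.card_congr (Equiv.refl _)
  have h4 : Fintype.card (m.C.face e q hb ht).S = Fintype.card {q' : m.C.S // q' ≠ q} :=
    Fintype.card_congr (Equiv.refl _)
  have h5 : Fintype.card (m.C.face e q hb ht).V = Fintype.card m.C.V :=
    Fintype.card_congr (Equiv.refl _)
  have h6 : Fintype.card (m.C.face e q hb ht).B = Fintype.card m.C.B :=
    Fintype.card_congr (Equiv.refl _)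
  rw [h3, h4, h5, h6]
  omega

end Pool.Agent.Helper35_WH
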