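import Pool.Agent.Helper35_WH.Stmt2

/-!
# Modules SEMI and TAME: minimal models
-/

namespace Pool.Agent.Helper35_WH

open FreeGroup

theorem Model.size_T {n : ℕ} {X Y : List (Lt n)} (m : Model n X Y) : m.T.size = m.size := by
  unfold Model.size
  have h1 : Fintype.card m.T.C.V = Fintype.card m.C.V := Fintype.card_congr (Equiv.refl _)
  have h2 : Fintype.card m.T.C.A = Fintype.card m.C.B := Fintype.card_congr (Equiv.refl _)
  have h3 : Fintype.card m.T.C.B = Fintype.card m.C.A := Fintype.card_congr (Equiv.refl _)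
  have h4 : Fintype.card m.T.C.S = Fintype.card m.C.S := Fintype.card_congr (Equiv.refl _)
  rw [h1, h2, h3, h4]
  omega

/-- the two properties of minimal models -/
theorem semi_half (h2 : FreeFaceStatement) (h3 : VisitStatement) {n : ℕ} {X Y : List (Lt n)}
    (hX : Filling (mk X)) (m : Model n X Y) (hmin : ∀ m' : Model n X Y, m.size ≤ m'.size) :
    (∀ e : m.C.A, (∀ b, (e, b) ∉ m.hp) →
      2 ≤ Fintype.card {x : m.C.S × Bool // m.C.hside x = e}) ∧
    ∀ e : m.C.A, ∃ e' b, (e', b) ∈ m.hp ∧ m.C.Track e e' := by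
  have hvis : ∀ e : m.C.A, ∃ e' b, (e', b) ∈ m.hp ∧ m.C.Track e e' := by
    intro e
    by_contra hcon
    push Not at hcon
    obtain ⟨m', hm'⟩ := h3 n X Y m hX e hcon
    exact absurd (hmin m') (not_le.2 hm')
  refine ⟨?_, hvis⟩
  intro e he
  by_contra hlt
  have hcases : Fintype.card {x : m.C.S × Bool // m.C.hside x = e} = 0 ∨
      Fintype.card {x : m.C.S × Bool // m.C.hside x = e} = 1 := by omega
  rcases hcases with h0 | h1
  · have hemp : IsEmpty {x : m.C.S × Bool // m.C.hside x = e} := Fintype.card_eq_zero_iff.1 h0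
    obtain ⟨e', b, hb, htr⟩ := hvis e
    have h4 := htr (fun a => decide (a = e)) (by
      intro q
      have h5 : m.C.bot q ≠ e := fun h => hemp.false ⟨(q, false), h⟩
      have h6 : m.C.top q ≠ e := fun h => hemp.false ⟨(q, true), h⟩
      simp [h5, h6])
    simp only [decide_true] at h4
    have h5 : e' = e := of_decide_eq_true h4.symm
    subst h5
    exact he b hb
  · obtain ⟨m', hm'⟩ := h2 n X Y m e he h1
    exact absurd (hmin m') (not_le.2 hm')

/-- **Module SEMI.** -/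
theorem semi (h2 : FreeFaceStatement) (h3 : VisitStatement) : SemiStatement := by
  intro n X Y hX hY hne
  obtain ⟨m, hm⟩ : ∃ m : Model n X Y, ∀ m' : Model n X Y, m.size ≤ m'.size := by
    classical
    have hex : ∃ k, ∃ m : Model n X Y, m.size = k := by
      obtain ⟨m⟩ := hne
      exact ⟨_, m, rfl⟩
    obtain ⟨m, hm⟩ := Nat.find_spec hex
    exact ⟨m, fun m' => by rw [hm]; exact Nat.find_min' hex ⟨m', rfl⟩⟩
  have hm' : ∀ m' : Model n Y X, m.T.size ≤ m'.size := by
    intro m'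
    rw [Model.size_T, ← Model.size_T m']
    exact hm _
  obtain ⟨a1, a2⟩ := semi_half h2 h3 hX m hm
  obtain ⟨b1, b2⟩ := semi_half h2 h3 hY m.T hm'
  exact ⟨m, ⟨a1, b1, a2, b2⟩⟩

/-- **Module TAME.** -/
theorem tame (h1 : InitStatement) (h4 : SemiStatement) (h5 : OneVertexStatement)
    (h7 : TightFillingStatement) : TameStatement := by
  intro n X Y ψ hψ cX cY aX aY tX tY
  obtain ⟨m, hm⟩ := h4 n X Y (h7 n X cX aX tX) (h7 n Y cY aY tY) (h1 n X Y ψ hψ)
  obtain ⟨a1, a2⟩ := h5 n X Y m cX aX tX hm.vis₁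
  obtain ⟨b1, b2⟩ := h5 n Y X m.T cY aY tY hm.vis₂
  exact ⟨m, ⟨hm.f₁, hm.f₂, b1, a1, a2, b2⟩⟩

end Pool.Agent.Helper35_WH
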