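import Pool.Agent.Helper35_WH.Stmt2

/-!
# Module ONEV: a model of a tight word has one vertical component
-/

namespace Pool.Agent.Helper35_WH

open FreeGroup

/-- the group with two elements -/
abbrev Z2 : Type := Multiplicative (ZMod 2)

theorem card_Z2 : Fintype.card Z2 = 2 := by
  rw [Fintype.card_multiplicative, ZMod.card]

/-! ### the quotient graph -/

section Quot

variable {I J : Type} (C : Cx I J)

/-- vertices in the same vertical component -/
def vSetoid : Setoid C.V where
  r u u' := ∀ f : C.V → Bool, (∀ e, f (C.s₂ e) = f (C.t₂ e)) → f u = f u'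
  iseqv := ⟨fun _ _ _ => rfl, fun h f hf => (h f hf).symm,
    fun h h' f hf => (h f hf).trans (h' f hf)⟩

/-- horizontal edges in the same track -/
def tSetoid : Setoid C.A where
  r e e' := C.Track e e'
  iseqv := ⟨fun _ _ _ => rfl, fun h f hf => (h f hf).symm,
    fun h h' f hf => (h f hf).trans (h' f hf)⟩

theorem vRel_eq {M : Type} {p : C.V → M} (hp : ∀ e, p (C.s₂ e) = p (C.t₂ e)) {u u' : C.V}
    (h : (vSetoid C).r u u') : p u = p u' := by
  classical
  have h1 := h (fun v => decide (p v = p u)) (fun e => by simp only [hp e])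
  simp only [decide_true] at h1
  exact (of_decide_eq_true h1.symm).symm

theorem track_eq {M : Type} {p : C.A → M} (hp : ∀ q, p (C.bot q) = p (C.top q)) {e e' : C.A}
    (h : C.Track e e') : p e = p e' := by
  classical
  have h1 := h (fun v => decide (p v = p e)) (fun e => by simp only [hp e])
  simp only [decide_true] at h1
  exact (of_decide_eq_true h1.symm).symm

theorem track_src {e e' : C.A} (h : C.Track e e') : (vSetoid C).r (C.s₁ e) (C.s₁ e') := by
  intro f hf
  exact h (fun a => f (C.s₁ a)) (fun q => by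
    rw [C.h1, C.h3]
    exact hf _)

theorem track_tgt {e e' : C.A} (h : C.Track e e') : (vSetoid C).r (C.t₁ e) (C.t₁ e') := by
  intro f hf
  exact h (fun a => f (C.t₁ a)) (fun q => by
    rw [C.h2, C.h4]
    exact hf _)

theorem s₂_t₂ (e : C.B) : (vSetoid C).r (C.s₂ e) (C.t₂ e) := fun _ hf => hf e

theorem bot_top (q : C.S) : C.Track (C.bot q) (C.top q) := fun _ hf => hf q

open Classical in
/-- the quotient graph: vertical components and tracks -/
noncomputable def quo : LGraph I where
  V := Quotient (vSetoid C)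
  E := Quotient (tSetoid C)
  fV := inferInstance
  fE := inferInstance
  dV := inferInstance
  dE := inferInstance
  src := Quotient.map C.s₁ (fun _ _ h => track_src C h)
  tgt := Quotient.map C.t₁ (fun _ _ h => track_tgt C h)
  lab := Quotient.lift C.l₁ (fun _ _ h => track_eq C (p := C.l₁) C.h5 h)

/-- the class of a vertex -/
noncomputable def qv (v : C.V) : (quo C).V := Quotient.mk (vSetoid C) v

/-- the class of an edge -/
noncomputable def qe (e : C.A) : (quo C).E := Quotient.mk (tSetoid C) e

theorem qv_surj : Function.Surjective (qv C) := Quotient.mk_surjective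

theorem qe_surj : Function.Surjective (qe C) := Quotient.mk_surjective

theorem qv_eq {u u' : C.V} : qv C u = qv C u' ↔ (vSetoid C).r u u' := Quotient.eq

theorem qe_eq {e e' : C.A} : qe C e = qe C e' ↔ C.Track e e' := Quotient.eq

theorem quo_src (e : C.A) : (quo C).src (qe C e) = qv C (C.s₁ e) := rfl

theorem quo_tgt (e : C.A) : (quo C).tgt (qe C e) = qv C (C.t₁ e) := rfl

theorem quo_lab (e : C.A) : (quo C).lab (qe C e) = C.l₁ e := rfl

theorem quo_path : ∀ (L : List (C.A × Bool)) (u w : C.V), IsPath C.s₁ C.t₁ u L w →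
    IsPath (quo C).src (quo C).tgt (qv C u) (L.map fun x => (qe C x.1, x.2)) (qv C w) := by
  intro L
  induction L with
  | nil =>
    intro u w h
    exact congrArg (qv C) h
  | cons x L ih =>
    intro u w h
    obtain ⟨e, b⟩ := x
    obtain ⟨h1, h2⟩ := h
    refine ⟨?_, ?_⟩
    · rw [h1]
      cases b <;> rfl
    · have h3 := ih _ _ h2
      cases b with
      | false => exact h3
      | true => exact h3

theorem qv_vpath : ∀ (L : List (C.B × Bool)) (u w : C.V), IsPath C.s₂ C.t₂ u L w →
    qv C u = qv C w := by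
  intro L
  induction L with
  | nil =>
    intro u w h
    exact congrArg (qv C) h
  | cons x L ih =>
    intro u w h
    obtain ⟨e, b⟩ := x
    obtain ⟨h1, h2⟩ := h
    rw [← ih _ _ h2, h1]
    cases b with
    | false => exact ((qv_eq C).2 (s₂_t₂ C e)).symm
    | true => exact (qv_eq C).2 (s₂_t₂ C e)

theorem quo_read (L : List (C.A × Bool)) :
    readW (quo C).lab (L.map fun x => (qe C x.1, x.2)) = readW C.l₁ L := by
  unfold readW
  rw [List.map_map]
  rfl

end Quot

/-! ### universality -/

section Univ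

variable {n : ℕ} {X Y : List (Lt n)} (m : Model n X Y)

/-- the labelling of the quotient graph given by a homomorphism and a gauge -/
def labl {M : Type} [Group M] {I : Type} (G : LGraph I) (h : FreeGroup I →* M) (p : G.V → M)
    (t : G.E) : M :=
  (p (G.src t))⁻¹ * h (of (G.lab t)) * p (G.tgt t)

theorem quo_univ {M : Type} [Group M] (μ : (quo m.C).E → M) :
    ∃! x : (FG n →* M) × ((quo m.C).V → M), x.2 (qv m.C m.w0) = 1 ∧
      μ = labl (quo m.C) x.1 x.2 := by
  have hflat : m.C.Flat (fun e => μ (qe m.C e)) (fun _ => (1 : M)) := by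
    intro q
    rw [mul_one, one_mul]
    exact congrArg μ ((qe_eq m.C).2 (bot_top m.C q))
  obtain ⟨⟨f, p⟩, ⟨hp0, hp1, hp2⟩, hun⟩ := m.univ M _ _ hflat
  dsimp only at hp0 hp1 hp2
  have hpc : ∀ e, p (m.C.s₂ e) = p (m.C.t₂ e) := by
    intro e
    have := hp2 e
    rw [_root_.map_one, mul_one] at this
    exact (eq_of_inv_mul_eq_one this.symm)
  have hlift : ∀ u u', (vSetoid m.C).r u u' → p u = p u' := fun u u' h => vRel_eq m.C hpc h
  refine ⟨(f.comp m.eX.toMonoidHom, Quotient.lift p hlift), ⟨hp0, ?_⟩, ?_⟩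
  · funext t
    obtain ⟨e, rfl⟩ := qe_surj m.C t
    exact hp1 e
  · rintro ⟨g, r⟩ ⟨hr0, hr1⟩
    dsimp only at hr0 hr1
    have h1 := hun (g.comp m.eX.symm.toMonoidHom, fun v => r (qv m.C v)) ⟨hr0, ?_, ?_⟩
    · rw [Prod.mk.injEq] at h1
      refine Prod.ext ?_ ?_
      · change g = f.comp m.eX.toMonoidHom
        rw [← h1.1]
        ext x
        simp
      · funext v
        obtain ⟨v, rfl⟩ := qv_surj m.C v
        exact congrFun h1.2 v
    · intro e
      have h2 := congrFun hr1 (qe m.C e)
      rw [h2]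
      unfold labl
      rw [quo_src, quo_tgt, quo_lab]
      simp
    · intro e
      have h2 : qv m.C (m.C.s₂ e) = qv m.C (m.C.t₂ e) := (qv_eq m.C).2 (s₂_t₂ m.C e)
      simp [h2]

theorem quo_conn (hs : SurjStatement) : (quo m.C).Con (qv m.C m.w0) ∧
    (quo m.C).Surj (qv m.C m.w0) := by
  obtain ⟨h1, h2⟩ := hs (quo m.C).V (quo m.C).E (FG n) (quo m.C).src (quo m.C).tgt
    (fun t => of ((quo m.C).lab t)) (qv m.C m.w0) (by
      intro M _ x x' hx hx' h
      obtain ⟨y, -, hy⟩ := quo_univ m (labl (quo m.C) x.1 x.2)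
      rw [hy x ⟨hx, rfl⟩, hy x' ⟨hx', funext h⟩])
  refine ⟨h1, fun g => ?_⟩
  obtain ⟨L, hL, hg⟩ := h2 g
  refine ⟨L, hL, ?_⟩
  rw [← hg]
  have h3 : ∀ L : List ((quo m.C).E × Bool), FreeGroup.mk (readW (quo m.C).lab L) =
      (L.map fun x => if x.2 then of ((quo m.C).lab x.1) else (of ((quo m.C).lab x.1))⁻¹).prod := by
    intro L
    induction L with
    | nil => rfl
    | cons x L ih =>
      obtain ⟨t, b⟩ := x
      rw [List.map_cons, List.prod_cons, ← ih]
      cases b with
      | true => rfl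
      | false => rfl
  exact h3 L

theorem quo_card : Fintype.card (quo m.C).E + 1 = Fintype.card (quo m.C).V + n := by
  classical
  let Ψ : (Fin n → Z2) × ((quo m.C).V → Z2) → Z2 × ((quo m.C).E → Z2) := fun x =>
    (x.2 (qv m.C m.w0), labl (quo m.C) (FreeGroup.lift x.1) x.2)
  have hΨ : Function.Bijective Ψ := by
    have hshift : ∀ (h : FG n →* Z2) (p : (quo m.C).V → Z2) (c : Z2),
        labl (quo m.C) h (fun v => c * p v) = labl (quo m.C) h p := by
      intro h p c
      funext t
      unfold labl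
      rw [mul_inv]
      have : c⁻¹ * (p ((quo m.C).src t))⁻¹ * h (of ((quo m.C).lab t)) *
          (c * p ((quo m.C).tgt t)) = (p ((quo m.C).src t))⁻¹ * h (of ((quo m.C).lab t)) *
          p ((quo m.C).tgt t) * (c⁻¹ * c) := by
        simp only [mul_assoc, mul_comm, mul_left_comm]
      rw [this, inv_mul_cancel, mul_one]
    constructor
    · rintro ⟨h, p⟩ ⟨h', p'⟩ heq
      have e1 : p (qv m.C m.w0) = p' (qv m.C m.w0) := congrArg Prod.fst heq
      have e2 : labl (quo m.C) (FreeGroup.lift h) p = labl (quo m.C) (FreeGroup.lift h') p' :=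
        congrArg Prod.snd heq
      obtain ⟨y, -, hy⟩ := quo_univ m (labl (quo m.C) (FreeGroup.lift h) p)
      have h1 := hy (FreeGroup.lift h, fun v => (p (qv m.C m.w0))⁻¹ * p v)
        ⟨inv_mul_cancel _, (hshift _ _ _).symm⟩
      have h2 := hy (FreeGroup.lift h', fun v => (p (qv m.C m.w0))⁻¹ * p' v)
        ⟨by rw [e1]; exact inv_mul_cancel _, by rw [hshift]; exact e2⟩
      have h3 := h1.trans h2.symm
      rw [Prod.mk.injEq] at h3
      refine Prod.ext ?_ ?_
      · exact FreeGroup.lift.injective h3.1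
      · funext v
        exact mul_left_cancel (congrFun h3.2 v)
    · rintro ⟨c, μ⟩
      obtain ⟨⟨g, r⟩, ⟨hr0, hr1⟩, -⟩ := quo_univ m μ
      dsimp only at hr0 hr1
      refine ⟨(fun i => g (of i), fun v => c * r v), Prod.ext ?_ ?_⟩
      · change c * r (qv m.C m.w0) = c
        rw [hr0, mul_one]
      · change labl (quo m.C) (FreeGroup.lift fun i => g (of i)) (fun v => c * r v) = μ
        rw [hshift, hr1]
        congr 1
        ext i
        simp
  have h1 := Fintype.card_of_bijective hΨ
  rw [Fintype.card_prod, Fintype.card_prod, Fintype.card_fun, Fintype.card_fun,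
    Fintype.card_fun, card_Z2, Fintype.card_fin, ← pow_add, ← pow_succ'] at h1
  have h2 := Nat.pow_right_injective (le_refl 2) h1
  omega

end Univ

/-! ### paths -/

theorem isPath_append' {V E : Type} (s t : E → V) : ∀ (L₁ L₂ : List (E × Bool)) (u w : V),
    IsPath s t u (L₁ ++ L₂) w ↔ ∃ v, IsPath s t u L₁ v ∧ IsPath s t v L₂ w := by
  intro L₁
  induction L₁ with
  | nil =>
    intro L₂ u w
    constructor
    · intro h
      exact ⟨u, rfl, h⟩
    · rintro ⟨v, h1, h2⟩
      have h1' : u = v := h1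
      rw [List.nil_append, h1']
      exact h2
  | cons x L₁ ih =>
    intro L₂ u w
    obtain ⟨e, b⟩ := x
    constructor
    · rintro ⟨h1, h2⟩
      obtain ⟨v, h3, h4⟩ := (ih _ _ _).1 h2
      exact ⟨v, ⟨h1, h3⟩, h4⟩
    · rintro ⟨v, ⟨h1, h3⟩, h4⟩
      exact ⟨h1, (ih _ _ _).2 ⟨v, h3, h4⟩⟩

theorem org_inv {I : Type} (G : LGraph I) (x : G.E × Bool) :
    G.org (inv x) = if x.2 then G.tgt x.1 else G.src x.1 := by
  obtain ⟨e, b⟩ := x
  cases b <;> rfl

theorem path_first {I : Type} (G : LGraph I) {x : G.E × Bool} {L : List (G.E × Bool)} {u w : G.V}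
    (h : IsPath G.src G.tgt u (x :: L) w) : G.org x = u ∧ IsPath G.src G.tgt (G.org (inv x)) L w := by
  obtain ⟨e, b⟩ := x
  obtain ⟨h1, h2⟩ := h
  rw [org_inv]
  exact ⟨h1.symm, h2⟩

theorem path_last {I : Type} (G : LGraph I) {x : G.E × Bool} {L : List (G.E × Bool)} {u w : G.V}
    (h : IsPath G.src G.tgt u (L ++ [x]) w) : G.org (inv x) = w := by
  obtain ⟨v, -, h2⟩ := (isPath_append' _ _ _ _ _ _).1 h
  obtain ⟨-, h3⟩ := path_first G h2
  exact h3

/-- a rotation of a cyclically reduced word -/
theorem cyc_rotate {α : Type} {L₁ L₂ : List (α × Bool)} (h : IsCyclicallyReduced (L₁ ++ L₂)) :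
    IsCyclicallyReduced (L₂ ++ L₁) := by
  by_cases h1 : L₁ = []
  · subst h1
    simpa using h
  by_cases h2 : L₂ = []
  · subst h2
    simpa using h
  obtain ⟨h3, h4⟩ := h
  unfold FreeGroup.IsReduced at h3
  rw [List.isChain_append] at h3
  obtain ⟨a1, a2, a3⟩ := h3
  rw [List.getLast?_append_of_ne_nil _ h2, List.head?_append_of_ne_nil _ h1] at h4
  refine ⟨?_, ?_⟩
  · unfold FreeGroup.IsReduced
    rw [List.isChain_append]
    exact ⟨a2, a1, h4⟩
  · rw [List.getLast?_append_of_ne_nil _ h1, List.head?_append_of_ne_nil _ h2]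
    exact a3

/-- a visited germ is not alone at its vertex -/
theorem second_germ {I : Type} (G : LGraph I) {o : G.V} {L : List (G.E × Bool)}
    (hL : IsPath G.src G.tgt o L o) (hc : IsCyclicallyReduced (readW G.lab L)) (t : G.E)
    (b b' : Bool) (hb : (t, b') ∈ L) : ∃ d, d ≠ (t, b) ∧ G.org d = G.org (t, b) := by
  obtain ⟨L₁, L₂, rfl⟩ := List.append_of_mem hb
  obtain ⟨v, h1, h2⟩ := (isPath_append' _ _ _ _ _ _).1 hL
  have hR : IsPath G.src G.tgt v (((t, b') :: L₂) ++ L₁) v :=
    (isPath_append' _ _ _ _ _ _).2 ⟨o, h2, h1⟩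
  have hcR : IsCyclicallyReduced (readW G.lab (((t, b') :: L₂) ++ L₁)) := by
    unfold readW at hc ⊢
    rw [List.map_append] at hc ⊢
    exact cyc_rotate hc
  rw [List.cons_append] at hR hcR
  set R := L₂ ++ L₁ with hRdef
  obtain ⟨hf1, hf2⟩ := path_first G hR
  by_cases hbb : b' = b
  · subst hbb
    rcases List.eq_nil_or_concat R with hnil | ⟨R', g, hg⟩
    · refine ⟨inv (t, b'), inv_ne _, ?_⟩
      rw [hnil] at hf2
      have h3 : G.org (inv (t, b')) = v := hf2
      rw [h3, hf1]
    · rw [List.concat_eq_append] at hg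
      rw [hg] at hR hcR
      refine ⟨inv g, ?_, ?_⟩
      · intro h
        have h3 := hcR.2 (G.lab g.1, g.2) (by
          unfold readW
          rw [List.map_cons, List.map_append, List.map_singleton]
          rw [← List.cons_append, List.getLast?_concat]
          rfl) (G.lab t, b') rfl
        have h4 : g.1 = t := congrArg Prod.fst h
        have h5 : (!g.2) = b' := congrArg Prod.snd h
        have h6 : g.2 = b' := h3 (by rw [h4])
        rw [h6] at h5
        exact absurd h5 (by cases b' <;> decide)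
      · rw [← List.cons_append] at hR
        rw [path_last G hR, hf1]
  · have hb2 : b' = !b := by
      cases b <;> cases b' <;> simp_all
    subst hb2
    have horg : G.org (inv (t, !b)) = G.org (t, b) := by
      unfold inv
      rw [Bool.not_not]
    rw [horg] at hf2
    cases hRc : R with
    | nil =>
      rw [hRc] at hf2
      have h3 : G.org (t, b) = v := hf2
      refine ⟨(t, !b), ?_, ?_⟩
      · intro h
        have := congrArg Prod.snd h
        revert this
        cases b <;> simp
      · rw [h3, hf1]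
    | cons g R' =>
      rw [hRc] at hf2 hcR
      obtain ⟨hg1, -⟩ := path_first G hf2
      refine ⟨g, ?_, hg1⟩
      intro h
      subst h
      have h3 := hcR.1
      unfold readW FreeGroup.IsReduced at h3
      rw [List.map_cons, List.map_cons, List.isChain_cons_cons] at h3
      have h4 : (!b) = b := h3.1 rfl
      revert h4
      cases b <;> simp

/-- **Module ONEV.** -/
theorem oneVertex (h2 : LFCoreStatement) (hs : SurjStatement) : OneVertexStatement := by
  intro n X Y m hcyc hall htight hvis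
  obtain ⟨hcon, hsurj⟩ := quo_conn m hs
  have hcard := quo_card m
  have ho : qv m.C m.w1 = qv m.C m.w0 := qv_vpath m.C _ _ _ m.vp_path
  have hpath := quo_path m.C _ _ _ m.hp_path
  rw [ho] at hpath
  have hread : readW (quo m.C).lab (m.hp.map fun x => (qe m.C x.1, x.2)) = X :=
    (quo_read m.C m.hp).trans m.hp_read
  have hvis' : ∀ t : (quo m.C).E, ∃ b', (t, b') ∈ m.hp.map fun x => (qe m.C x.1, x.2) := by
    intro t
    obtain ⟨e, rfl⟩ := qe_surj m.C t
    obtain ⟨e', b', hb', htr⟩ := hvis e
    refine ⟨b', List.mem_map.2 ⟨(e', b'), hb', ?_⟩⟩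
    rw [(qe_eq m.C).2 htr]
  have hlt : Fintype.card (quo m.C).V < 2 := by
    by_contra hge
    push Not at hge
    have hgerm : ∀ u : (quo m.C).V, ∃ d : (quo m.C).E × Bool, (quo m.C).org d = u := by
      intro u
      by_cases hu : u = qv m.C m.w0
      · obtain ⟨w, hw⟩ := Fintype.exists_ne_of_one_lt_card (by omega) (qv m.C m.w0)
        obtain ⟨L, hL⟩ := hcon w
        cases L with
        | nil => exact absurd hL.symm hw
        | cons x L =>
          obtain ⟨h3, -⟩ := path_first _ hL
          exact ⟨x, by rw [h3, hu]⟩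
      · obtain ⟨L, hL⟩ := hcon u
        rcases List.eq_nil_or_concat L with rfl | ⟨L', x, rfl⟩
        · exact absurd (show qv m.C m.w0 = u from hL).symm hu
        · rw [List.concat_eq_append] at hL
          exact ⟨inv x, path_last _ hL⟩
    have htwo : ∀ u, ∃ d d' : (quo m.C).E × Bool, d ≠ d' ∧ (quo m.C).org d = u ∧
        (quo m.C).org d' = u := by
      intro u
      obtain ⟨⟨t, b⟩, hd⟩ := hgerm u
      obtain ⟨b', hb'⟩ := hvis' t
      obtain ⟨d', hd', hd''⟩ := second_germ (quo m.C) hpath (by rw [hread]; exact hcyc) t b b' hb'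
      exact ⟨d', (t, b), hd', hd''.trans hd, hd⟩
    have hne : (m.hp.map fun x => (qe m.C x.1, x.2)) ≠ [] := by
      obtain ⟨⟨t, b⟩, -⟩ := hgerm (qv m.C m.w0)
      obtain ⟨b', hb'⟩ := hvis' t
      exact List.ne_nil_of_mem hb'
    obtain ⟨z, s, a, k, h3, h4⟩ := h2 n (quo m.C) (qv m.C m.w0) hcon hsurj hcard hge htwo
      (qv m.C m.w0) _ hpath hne (by rw [hread]; exact hcyc)
    rw [hread] at h4
    exact htight ⟨z, s, a, k, h3, h4⟩
  have hsub : ∀ u u' : (quo m.C).V, u = u' := by
    have : Fintype.card (quo m.C).V ≤ 1 := by omega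
    exact Fintype.card_le_one_iff.1 this
  refine ⟨?_, ?_⟩
  · intro f hf u u'
    exact (qv_eq m.C).1 (hsub (qv m.C u) (qv m.C u')) f hf
  · intro f hf e e' hl
    have hV : Fintype.card (quo m.C).V = 1 := by
      have : 0 < Fintype.card (quo m.C).V := Fintype.card_pos_iff.2 ⟨qv m.C m.w0⟩
      omega
    have hE : Fintype.card (quo m.C).E = Fintype.card (Fin n) := by
      rw [Fintype.card_fin]
      omega
    have hsur : Function.Surjective (quo m.C).lab := by
      intro i
      obtain ⟨b, hb⟩ := hall i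
      rw [← m.hp_read] at hb
      obtain ⟨⟨e'', b''⟩, -, h3⟩ := List.mem_map.1 hb
      exact ⟨qe m.C e'', congrArg Prod.fst h3⟩
    have hinj := ((Fintype.bijective_iff_surjective_and_card _).2 ⟨hsur, hE⟩).1
    exact (qe_eq m.C).1 (hinj (show (quo m.C).lab (qe m.C e) = (quo m.C).lab (qe m.C e') from hl))
      f hf

end Pool.Agent.Helper35_WH
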